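import Pool.Agent.Helper1.Hist.CaseB2
import Pool.Agent.Helper1.Hist.Select
import Pool.Agent.Helper1.Hist.Unfold

/-! Every 1,3-tree on more than 4000 vertices is isomorphic to a Hist of some snark. -/

namespace Pool.Agent.Results.MP_097372_co.LargeTreesAreHists

open Pool.Agent.Helper1.Hist Pool.Agent.Helper1.Hist.BT

theorem isHist_of {B C : BT} (hB : B ≠ leaf) (hC : C ≠ leaf) {G : SimpleGraph (W B C)}
    (hG : H B C ≤ G) (hT : (H B C).IsTree) : IsHist G (H B C) := by
  refine ⟨hG, hT, ?_⟩
  intro u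
  by_cases hu : IsLfW u
  · have h1 : (H B C).neighborSet u = {up u} := by
      ext v
      rw [SimpleGraph.mem_neighborSet, H_adj_leaf hB hC hu]
      simp
    rw [h1, Set.ncard_singleton]
    omega
  · have h1 : (H B C).neighborSet u = {lcW u, rcW u, up u} := by
      ext v
      rw [SimpleGraph.mem_neighborSet, H_adj_nonleaf hu]
      simp
    rw [h1, Set.ncard_eq_three.2 ⟨_, _, _, lcW_ne_rcW hu, lcW_ne_up hu, rcW_ne_up hu, rfl⟩]
    omega

/-- Every 1,3-tree `T` on more than 4000 vertices is isomorphic to a Hist of some snark. -/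
theorem result (V : Type*) [Fintype V] (T : SimpleGraph V) (hT : Is13Tree T)
    (hcard : 4000 < Fintype.card V) :
    ∃ (W : Type) (_ : Fintype W) (G H : SimpleGraph W),
      IsSnark G ∧ IsHist G H ∧ Nonempty (H ≃g T) := by
  obtain ⟨hTree, h13⟩ := hT
  -- an edge
  obtain ⟨r⟩ : Nonempty V := Fintype.card_pos_iff.1 (by omega)
  obtain ⟨v, hv⟩ : (T.neighborSet r).Nonempty := by
    rw [Set.nonempty_iff_ne_empty]
    intro h
    have := h13 r
    rw [h, Set.ncard_empty] at this
    omega
  obtain ⟨B0, C0, Φ, hΦ⟩ := exists_locIso hTree.2 h13 hv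
  obtain ⟨i0⟩ := locIso_iso hTree hΦ
  obtain ⟨c, hs⟩ := exists_leaf_root B0 C0
  obtain ⟨i1⟩ := hs.iso
  obtain ⟨n1⟩ := norm_riso c
  have i2 : H (norm c) leaf ≃g T :=
    (((isoRIso n1 (RIso.refl leaf)).symm.trans (isoSymm c leaf)).trans i1.symm).trans i0
  have hlen : 2000 ≤ (norm c).leaves.length := by
    have e1 := Fintype.card_congr i0.toEquiv
    have e2 : Fintype.card (B0.V ⊕ C0.V) = Fintype.card B0.V + Fintype.card C0.V :=
      Fintype.card_sum
    have e3 := card_V B0
    have e4 := card_V C0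
    have e5 := hs.length
    have e6 : leaf.leaves.length = 1 := rfl
    have e7 := norm_length c
    change Fintype.card (B0.V ⊕ C0.V) = Fintype.card V at e1
    omega
  obtain ⟨a, c', hs', hc', hor⟩ := select (norm c) leaf (norm_normal c) hlen
  obtain ⟨i3⟩ := hs'.iso
  obtain ⟨n2⟩ := norm_riso c'
  have i4 : H a (norm c') ≃g T :=
    ((isoRIso (RIso.refl a) n2).symm.trans i3.symm).trans i2
  have hH : (H a (norm c')).IsTree := i4.isTree_iff.2 hTree
  have ha : a.Normal := hs'.normal (norm_normal c)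
  have hlen' : 19 ≤ (norm c').leaves.length := by rw [norm_length]; exact hc'
  have hC : norm c' ≠ leaf := by
    intro h
    rw [h] at hlen'
    simp at hlen'
  have hA : a ≠ leaf := by
    rintro rfl
    rcases hor with h | ⟨t', h⟩
    · simp [ch] at h
    · rw [chain_succ] at h
      cases h
  obtain ⟨G, hG, hle⟩ : ∃ G : SimpleGraph (W a (norm c')), IsSnark G ∧ H a (norm c') ≤ G := by
    rcases hor with h | ⟨t', h⟩
    · exact caseA ha ((hasCh_leaves a).mono h) (norm_normal c') hlen' hH.2
    · subst h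
      exact caseB (chainData_chain t') ha (norm_normal c') hlen' hH.2
  exact ⟨W a (norm c'), inferInstance, G, H a (norm c'), hG, isHist_of hA hC hle hH, ⟨i4⟩⟩

end Pool.Agent.Results.MP_097372_co.LargeTreesAreHists
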